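import Pool.Agent.Kos53.Defs

/-!
# The base ring of the Fano matroid (MP_c7d84d_co), definitions

The points of the Fano plane are `0, .., 6`, the lines are the translates of `{0, 1, 3}` modulo 7.
-/

namespace KFQ

open MvPolynomial

/-- The seven lines of the Fano plane. -/
def lines : Finset (Finset (Fin 7)) :=
  {{0, 1, 3}, {1, 2, 4}, {2, 3, 5}, {3, 4, 6}, {0, 4, 5}, {1, 5, 6}, {0, 2, 6}}

/-- The bases of the Fano matroid: the three-element sets of points which are not lines. -/
abbrev Base : Type := {B : Finset (Fin 7) // B.card = 3 ∧ B ∉ lines}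

/-- The map `x_B ↦ ∏_{i ∈ B} t_i` from `k[x_B | B a base]` to `k[t_0, .., t_6]`. -/
noncomputable def phi (k : Type*) [Field k] : MvPolynomial Base k →ₐ[k] MvPolynomial (Fin 7) k :=
  aeval fun B => ∏ i ∈ B.1, X i

/-- The toric ideal. -/
noncomputable def toric (k : Type*) [Field k] : Ideal (MvPolynomial Base k) := RingHom.ker (phi k)

/-- The base ring of the Fano matroid over `k`. -/
abbrev BaseRing (k : Type*) [Field k] : Type _ := MvPolynomial Base k ⧸ toric k

/-- The linear forms of the base ring: the `k`-span of the images of the variables. -/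
noncomputable def linear (k : Type*) [Field k] : Submodule k (BaseRing k) :=
  Submodule.span k (Set.range fun B : Base => Ideal.Quotient.mk (toric k) (X B))

end KFQ
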