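import Pool.Agent.KFQ.Trans
import Pool.Agent.KF7.Split

/-! The base ring of the Fano matroid from the two halves. -/

namespace KFQ

open KSpM

/-- The bases as a finite set. -/
def fbF : Finset (Finset (Fin 7)) := (Finset.univ.powersetCard 3).filter fun B => B ∉ lines

theorem mem_fbF {B : Finset (Fin 7)} : B ∈ fbF ↔ B.card = 3 ∧ B ∉ lines := by
  unfold fbF
  rw [Finset.mem_filter, Finset.mem_powersetCard]
  constructor
  · exact fun h => ⟨h.1.2, h.2⟩
  · exact fun h => ⟨⟨Finset.subset_univ B, h.1⟩, h.2⟩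

/-- The exchange property. -/
theorem exch : ∀ X ∈ fbF, ∀ Y ∈ fbF, ∀ a ∈ X \ Y, ∃ b ∈ Y \ X, insert b (X.erase a) ∈ fbF := by
  decide +kernel

/-- The Fano matroid. -/
noncomputable def fano : Matroid (Fin 7) :=
  Matroid.ofIsBaseOfFinite (E := Set.univ) Set.finite_univ (fun B => ∃ C ∈ fbF, (C : Set (Fin 7)) = B)
    ⟨_, {0, 1, 2}, by decide +kernel, rfl⟩
    (by
      rintro _ _ ⟨X, hX, rfl⟩ ⟨Y, hY, rfl⟩ a ha
      obtain ⟨b, hb, h⟩ := exch X hX Y hY a (by
        rw [Finset.mem_sdiff]
        exact ha)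
      rw [Finset.mem_sdiff] at hb
      refine ⟨b, hb, _, h, ?_⟩
      rw [Finset.coe_insert, Finset.coe_erase])
    fun _ _ => Set.subset_univ _

theorem fano_isBase {B : Finset (Fin 7)} : fano.IsBase (B : Set (Fin 7)) ↔ B.card = 3 ∧ B ∉ lines := by
  rw [← mem_fbF]
  constructor
  · rintro ⟨C, hC, h⟩
    rwa [← Finset.coe_injective h]
  · exact fun h => ⟨B, h, rfl⟩

theorem isFano : KF7.IsFano fano := by
  refine ⟨Function.Embedding.refl _, ?_, fun B => ?_⟩
  · exact (Set.range_id).symm
  · have e1 : (Function.Embedding.refl (Fin 7)) '' (B : Set (Fin 7)) = B := Set.image_id _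
    rw [e1]
    exact fano_isBase

/-- The base ring of the Fano matroid has a linear resolution if the two halves are Koszul. -/
theorem fano_koszul (k : Type*) [Field k] (h₁ : Lin k KF7.c24) (h₂ : Lin k KF7.c20) :
    Kos53.HasLinRes k (BaseRing k) (linear k) := by
  refine of_baseAlg k ?_
  have h := KF7.fano_of isFano k h₁ h₂
  have e : {B : Finset (Fin 7) | fano.IsBase (B : Set (Fin 7))} = fb := by
    ext B
    exact fano_isBase
  unfold KSum.IsKoszul at h
  rw [e] at h
  exact h

end KFQ
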