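import Pool.Agent.KFQ.Defs

/-! Transport of linear resolutions along isomorphisms; the base ring as a subalgebra. -/

namespace KFQ

open MvPolynomial Kos53

/-- Linear resolutions are preserved by isomorphisms. -/
theorem hasLinRes_congr {K A A' : Type*} [Field K] [CommRing A] [Algebra K A] [CommRing A'] [Algebra K A']
    (e : A ≃ₐ[K] A') {V : Submodule K A} {V' : Submodule K A'} (hV : ∀ a, a ∈ V ↔ e a ∈ V')
    (h : HasLinRes K A V) : HasLinRes K A' V' := by
  obtain ⟨b, D, h0, h1, h2, h3⟩ := h
  have hmap : ∀ {m n : ℕ} (D : Matrix (Fin m) (Fin n) A) (w : Fin n → A),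
      (D.map e).mulVec (fun i => e (w i)) = fun i => e (D.mulVec w i) := by
    intro m n D w
    funext i
    simp only [Matrix.mulVec, dotProduct, Matrix.map_apply, map_sum, map_mul]
  have hmap' : ∀ {m n : ℕ} (D : Matrix (Fin m) (Fin n) A) (w : Fin n → A'),
      (D.map e).mulVec w = fun i => e (D.mulVec (fun j => e.symm (w j)) i) := by
    intro m n D w
    rw [← hmap]
    congr 1
    funext j
    exact (e.apply_symm_apply (w j)).symm
  have hsp : ∀ a, a ∈ Ideal.span (V : Set A) ↔ e a ∈ Ideal.span (V' : Set A') := by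
    intro a
    have e1 : Ideal.span (V' : Set A') = Ideal.map (e : A →+* A') (Ideal.span (V : Set A)) := by
      rw [Ideal.map_span]
      congr 1
      ext x
      constructor
      · intro hx
        refine ⟨e.symm x, ?_, e.apply_symm_apply x⟩
        rw [SetLike.mem_coe, hV, e.apply_symm_apply]
        exact hx
      · rintro ⟨y, hy, rfl⟩
        exact (hV y).1 hy
    rw [e1]
    constructor
    · exact fun h => Ideal.mem_map_of_mem _ h
    · intro h
      have h4 := (Ideal.mem_map_iff_of_surjective (e : A →+* A') e.surjective).1 h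
      obtain ⟨y, hy, hye⟩ := h4
      have : y = a := e.injective hye
      rwa [this] at hy
  refine ⟨b, fun i => (D i).map e, h0, fun i p q => ?_, fun v => ?_, fun i v => ?_⟩
  · exact (hV _).1 (h1 i p q)
  · constructor
    · rintro ⟨w, rfl⟩ p
      rw [hmap', ← hsp]
      exact (h2 _).1 ⟨_, rfl⟩ p
    · intro h
      obtain ⟨w, hw⟩ := (h2 fun p => e.symm (v p)).2 fun p => by
        rw [hsp, e.apply_symm_apply]
        exact h p
      refine ⟨fun j => e (w j), ?_⟩
      rw [hmap, hw]
      funext p
      exact e.apply_symm_apply (v p)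
  · constructor
    · intro h
      rw [hmap'] at h
      have h4 : (D i).mulVec (fun j => e.symm (v j)) = 0 := by
        funext p
        have h5 := congrFun h p
        exact (map_eq_zero_iff e e.injective).1 h5
      obtain ⟨w, hw⟩ := (h3 i _).1 h4
      refine ⟨fun j => e (w j), ?_⟩
      rw [hmap, hw]
      funext p
      exact e.apply_symm_apply (v p)
    · rintro ⟨w, rfl⟩
      rw [hmap', hmap']
      have h4 := (h3 i _).2 ⟨fun j => e.symm (w j), rfl⟩
      funext p
      have h5 := congrFun h4 p
      have h6 : (fun j => e.symm (e ((D (i + 1)).mulVec (fun l => e.symm (w l)) j))) =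
          (D (i + 1)).mulVec fun l => e.symm (w l) := by
        funext j
        exact e.symm_apply_apply _
      rw [h6, h5]
      exact map_zero e

/-- The bases. -/
def fb : Set (Finset (Fin 7)) := {B | B.card = 3 ∧ B ∉ lines}

theorem range_phi (k : Type*) [Field k] : (phi k).range = baseAlg k fb := by
  unfold phi baseAlg
  rw [← Algebra.adjoin_range_eq_range_aeval]
  congr 1
  ext x
  constructor
  · rintro ⟨B, rfl⟩
    exact ⟨B.1, B.2, rfl⟩
  · rintro ⟨B, hB, rfl⟩
    exact ⟨⟨B, hB⟩, rfl⟩

/-- The base ring is the subalgebra generated by the monomials. -/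
theorem of_baseAlg (k : Type*) [Field k] (h : HasLinRes k (baseAlg k fb) (linForms k fb)) :
    HasLinRes k (BaseRing k) (linear k) := by
  let e1 : BaseRing k ≃ₐ[k] (phi k).range := Ideal.quotientKerEquivRange (phi k)
  let e2 : (phi k).range ≃ₐ[k] baseAlg k fb := Subalgebra.equivOfEq _ _ (range_phi k)
  let e : BaseRing k ≃ₐ[k] baseAlg k fb := e1.trans e2
  have he : ∀ p : MvPolynomial Base k, ((e (Ideal.Quotient.mk (toric k) p) : baseAlg k fb) :
      MvPolynomial (Fin 7) k) = phi k p := fun p => rfl
  refine hasLinRes_congr e.symm (fun a => ?_) h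
  have h1 : linForms k fb = (linear k).map (e : BaseRing k →ₐ[k] baseAlg k fb).toLinearMap := by
    unfold linForms linear
    rw [Submodule.map_span]
    congr 1
    ext x
    constructor
    · rintro ⟨B, hB, hx⟩
      refine ⟨_, ⟨⟨B, hB⟩, rfl⟩, ?_⟩
      refine Subtype.ext ?_
      rw [hx]
      refine (he _).trans ?_
      unfold phi tB
      rw [aeval_X]
    · rintro ⟨_, ⟨B, rfl⟩, rfl⟩
      refine ⟨B.1, B.2, ?_⟩
      refine (he _).trans ?_
      unfold phi tB
      rw [aeval_X]
  rw [h1]
  constructor
  · rintro ⟨y, hy, rfl⟩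
    have : e.symm ((e : BaseRing k →ₐ[k] baseAlg k fb).toLinearMap y) = y := e.symm_apply_apply y
    rw [this]
    exact hy
  · intro h2
    exact ⟨e.symm a, h2, e.apply_symm_apply a⟩

end KFQ
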